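import Pool.Agent.Helper58_MOO.Stmts

set_option autoImplicit false

open Cardinal
open Pool.Agent.Helper69_LOTS

namespace Pool.Agent.MOO.H15

open Pool.Agent.MOO Node

/-- Each level of a pruned tree is nonempty. -/
theorem at_level {T : Set Node} (hT : AT T) (δ : Om) : ∃ s ∈ T, s.ht = δ := by
  obtain ⟨s, hs⟩ := hT.ne
  rcases le_total δ s.ht with h | h
  · exact ⟨s.res δ, hT.down s hs δ, res_ht_of_le h⟩
  · obtain ⟨t, ht, -, h2⟩ := hT.ext s hs δ h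
    exact ⟨t, ht, h2⟩

theorem at_unc {T : Set Node} (hT : AT T) : ¬ T.Countable := by
  intro hc
  obtain ⟨β, hβ⟩ := Om_bdd (hc.image (fun s : Node => s.ht))
  obtain ⟨s, hs, hsβ⟩ := at_level hT β
  exact (hβ s.ht ⟨s, hs, rfl⟩).ne hsβ

/-- The nodes of `T` of height at most `ξ`. -/
theorem at_le_countable {T : Set Node} (hT : AT T) (ξ : Om) :
    {s | s ∈ T ∧ s.ht ≤ ξ}.Countable := by
  have h1 : {s | s ∈ T ∧ s.ht ≤ ξ} ⊆ ⋃ δ ∈ Set.Iic ξ, {s | s ∈ T ∧ s.ht = δ} := by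
    rintro s ⟨hs, hs'⟩
    exact Set.mem_biUnion (show s.ht ∈ Set.Iic ξ from hs') ⟨hs, rfl⟩
  exact ((Om_Iic_countable ξ).biUnion (fun δ _ => hT.lev δ)).mono h1

theorem finsets_countable {A : Set Node} (hA : A.Countable) :
    {R : Finset Node | ∀ x ∈ R, x ∈ A}.Countable := by
  have : {R : Finset Node | ∀ x ∈ R, x ∈ A} = {R : Finset Node | (R : Set Node) ⊆ A} := by
    ext R
    rfl
  rw [this]
  exact Set.countable_setOf_finite_subset hA |>.preimage Finset.coe_injective |>.mono (by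
    intro R hR
    exact ⟨R.finite_toSet, hR⟩)

/-- A nonempty finite set of nodes below a limit ordinal is bounded below it. -/
theorem bdd_of_lim {R : Finset Node} {δ : Om} (hδ : IsLim δ) (hR : ∀ x ∈ R, x.ht < δ) :
    ∃ ξ, ξ < δ ∧ ∀ x ∈ R, x.ht ≤ ξ := by
  classical
  induction R using Finset.induction_on with
  | empty =>
    obtain ⟨ξ, hξ⟩ := hδ.1
    exact ⟨ξ, hξ, fun x hx => absurd hx (Finset.notMem_empty x)⟩
  | insert a R _ ih =>
    obtain ⟨ξ, hξ, hξ'⟩ := ih (fun x hx => hR x (Finset.mem_insert_of_mem hx))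
    refine ⟨max ξ a.ht, max_lt hξ (hR a (Finset.mem_insert_self a R)), fun x hx => ?_⟩
    rcases Finset.mem_insert.1 hx with rfl | hx
    · exact le_max_right _ _
    · exact (hξ' x hx).trans (le_max_left _ _)

theorem ant (hMah : MahStmt) (hBmr : BmrStmt) : AntStmt := by
  classical
  intro hPFA T hT
  let 𝓕 : Set (Finset Node) := {F | (∀ s ∈ F, s ∈ T) ∧ ∀ s ∈ F, ∀ t ∈ F, s ≠ t → Inc s t}
  have hcc : ∀ 𝒰 : Set (Finset Node), 𝒰 ⊆ 𝓕 → ¬ 𝒰.Countable →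
      ∃ A ∈ 𝒰, ∃ B ∈ 𝒰, A ≠ B ∧ ∃ E ∈ 𝓕, A ⊆ E ∧ B ⊆ E := by
    intro 𝒰 h𝒰 hunc
    -- the clubs
    have hC : ∀ R : Finset Node, ∃ C, Clb C ∧ ∀ δ ∈ C, ∀ U ∈ 𝒰, R ⊆ U →
        (∀ x ∈ U \ R, δ ≤ x.ht) →
        ∃ U' ∈ 𝒰, R ⊆ U' ∧ (∀ x ∈ U' \ R, x.ht < δ) ∧
          ∀ x ∈ U \ R, ∀ x' ∈ U' \ R, Inc x x' := by
      intro R
      obtain ⟨C, hC, hC'⟩ := hBmr T T hT hT
        {w | ∃ U ∈ 𝒰, R ⊆ U ∧ w = (U \ R, (∅ : Finset Node))} (by
          rintro w ⟨U, hU, -, rfl⟩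
          exact ⟨fun x hx => (h𝒰 hU).1 x (Finset.mem_sdiff.1 hx).1,
            fun y hy => absurd hy (Finset.notMem_empty y)⟩)
      refine ⟨C, hC, fun δ hδ U hU hRU hx => ?_⟩
      obtain ⟨w', ⟨U', hU', hRU', rfl⟩, h1, -, h2, -⟩ := hC' δ hδ (U \ R, ∅)
        ⟨U, hU, hRU, rfl⟩ hx (fun y hy => absurd hy (Finset.notMem_empty y))
      exact ⟨U', hU', hRU', h1, h2⟩
    choose C hC hC' using hC
    -- the diagonal intersection
    have hD : ∀ ξ : Om, ∃ D, Clb D ∧ ∀ R : Finset Node, (∀ x ∈ R, x ∈ T ∧ x.ht ≤ ξ) →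
        D ⊆ C R := by
      intro ξ
      have hcnt : {R : Finset Node | ∀ x ∈ R, x ∈ {s | s ∈ T ∧ s.ht ≤ ξ}}.Countable :=
        finsets_countable (at_le_countable hT ξ)
      haveI : Countable {R : Finset Node | ∀ x ∈ R, x ∈ {s | s ∈ T ∧ s.ht ≤ ξ}} :=
        hcnt.to_subtype
      haveI : Nonempty {R : Finset Node | ∀ x ∈ R, x ∈ {s | s ∈ T ∧ s.ht ≤ ξ}} :=
        ⟨⟨∅, fun x hx => absurd hx (Finset.notMem_empty x)⟩⟩
      refine ⟨⋂ R : {R : Finset Node | ∀ x ∈ R, x ∈ {s | s ∈ T ∧ s.ht ≤ ξ}}, C R.1,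
        Clb.iInter (fun R => hC R.1), fun R hR => ?_⟩
      exact Set.iInter_subset
        (fun R : {R : Finset Node | ∀ x ∈ R, x ∈ {s | s ∈ T ∧ s.ht ≤ ξ}} => C R.1) ⟨R, hR⟩
    choose D hD hD' using hD
    have hE : Clb ({δ | ∀ ξ, ξ < δ → δ ∈ D ξ} ∩ {δ | IsLim δ}) :=
      (Clb.diag hD).inter Clb.lim
    obtain ⟨δ, ⟨hδ1, hδ2⟩, -⟩ := hE.1 (Classical.arbitrary Om)
    -- a member of `𝒰` going above `δ`
    have hU : ∃ U ∈ 𝒰, ∃ x ∈ U, δ ≤ x.ht := by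
      by_contra hcon
      push Not at hcon
      apply hunc
      refine (finsets_countable (at_le_countable hT δ)).mono ?_
      intro U hU x hx
      exact ⟨(h𝒰 hU).1 x hx, (hcon U hU x hx).le⟩
    obtain ⟨U, hU, x₀, hx₀, hx₀'⟩ := hU
    set R : Finset Node := U.filter (fun x => x.ht < δ) with hR
    have hRδ : ∀ x ∈ R, x.ht < δ := fun x hx => (Finset.mem_filter.1 hx).2
    have hRU : R ⊆ U := Finset.filter_subset _ _
    obtain ⟨ξ, hξ, hξ'⟩ := bdd_of_lim hδ2 hRδ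
    have hδC : δ ∈ C R := hD' ξ R (fun x hx => ⟨(h𝒰 hU).1 x (hRU hx), hξ' x hx⟩) (hδ1 ξ hξ)
    obtain ⟨U', hU', hRU', h1, h2⟩ := hC' R δ hδC U hU hRU (by
      intro x hx
      obtain ⟨hx1, hx2⟩ := Finset.mem_sdiff.1 hx
      by_contra hlt
      exact hx2 (Finset.mem_filter.2 ⟨hx1, not_le.1 hlt⟩))
    have hU'δ : ∀ x ∈ U', x.ht < δ := by
      intro x hx
      by_cases hxR : x ∈ R
      · exact hRδ x hxR
      · exact h1 x (Finset.mem_sdiff.2 ⟨hx, hxR⟩)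
    refine ⟨U, hU, U', hU', ?_, U ∪ U', ⟨?_, ?_⟩, Finset.subset_union_left,
      Finset.subset_union_right⟩
    · rintro rfl
      exact absurd (hU'δ x₀ hx₀) (not_lt.2 hx₀')
    · intro s hs
      rcases Finset.mem_union.1 hs with hs | hs
      · exact (h𝒰 hU).1 s hs
      · exact (h𝒰 hU').1 s hs
    · have key : ∀ s ∈ U, ∀ t ∈ U', s ≠ t → Inc s t := by
        intro s hs t ht hst
        by_cases hsR : s ∈ R
        · exact (h𝒰 hU').2 s (hRU' hsR) t ht hst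
        · by_cases htR : t ∈ R
          · exact (h𝒰 hU).2 s hs t (hRU htR) hst
          · exact h2 s (Finset.mem_sdiff.2 ⟨hs, hsR⟩) t (Finset.mem_sdiff.2 ⟨ht, htR⟩)
      intro s hs t ht hst
      rcases Finset.mem_union.1 hs with hs | hs <;> rcases Finset.mem_union.1 ht with ht | ht
      · exact (h𝒰 hU).2 s hs t ht hst
      · exact key s hs t ht hst
      · exact (key t ht s hs hst.symm).symm
      · exact (h𝒰 hU').2 s hs t ht hst
  obtain ⟨Y, hYT, hYunc, hY⟩ := hMah hPFA Node 𝓕 (fun A hA B hB => ⟨fun s hs => hA.1 s (hB hs),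
    fun s hs t ht => hA.2 s (hB hs) t (hB ht)⟩) hcc T (at_unc hT) (by
      intro x hx
      refine ⟨fun s hs => ?_, fun s hs t ht hst => ?_⟩
      · rw [Finset.mem_singleton.1 hs]
        exact hx
      · exact absurd ((Finset.mem_singleton.1 hs).trans (Finset.mem_singleton.1 ht).symm) hst)
  refine ⟨Y, hYT, hYunc, fun s hs t ht hst => ?_⟩
  have h3 := hY {s, t} (by
    intro x hx
    rw [Finset.mem_coe, Finset.mem_insert, Finset.mem_singleton] at hx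
    rcases hx with rfl | rfl
    · exact hs
    · exact ht)
  exact h3.2 s (Finset.mem_insert_self _ _) t
    (Finset.mem_insert_of_mem (Finset.mem_singleton_self _)) hst

end Pool.Agent.MOO.H15
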