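import Pool.Agent.Helper58_MOO.Stmts

set_option autoImplicit false

open Cardinal
open Pool.Agent.Helper69_LOTS

namespace Pool.Agent.MOO.H15

open Pool.Agent.MOO Node

instance instInfOm : Infinite Om := inferInstance

theorem aleph0_le_setOm : ℵ₀ ≤ #(Set Om) := aleph0_le_mk _

theorem mk_setOm : #(Set Om) = 2 ^ ℵ₁ := by
  rw [mk_set, mk_Om]

theorem mk_setOm_pow : #(Set Om) ^ ℵ₀ = #(Set Om) := by
  rw [mk_setOm, ← power_mul, mul_eq_left (aleph0_le_aleph 1) (aleph0_le_aleph 1) aleph0_ne_zero]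

theorem mk_cnt : #{N : Set (Set Om) // N.Countable} ≤ #(Set Om) := by
  have h1 : #{N : Set (Set Om) // #N ≤ ℵ₀} ≤ #(Set Om) := by
    refine (mk_bounded_set_le (Set Om) ℵ₀).trans ?_
    rw [max_eq_left aleph0_le_setOm, mk_setOm_pow]
  refine le_trans ?_ h1
  refine mk_le_of_injective (f := fun N : {N : Set (Set Om) // N.Countable} =>
    (⟨N.1, le_aleph0_iff_set_countable.2 N.2⟩ : {N : Set (Set Om) // #N ≤ ℵ₀})) ?_
  intro a b h
  apply Subtype.ext
  exact congrArg (fun N : {N : Set (Set Om) // #N ≤ ℵ₀} => N.1) h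

theorem mk_node : #Node ≤ #(Set Om) := by
  have h1 : #Node ≤ #(Om × (Om → Bool)) := by
    refine mk_le_of_injective (f := fun s : Node => (s.ht, s.val)) ?_
    intro s t h
    have h' := Prod.mk.inj h
    exact Node.ext h'.1 h'.2
  refine h1.trans ?_
  rw [mk_prod, lift_id, lift_id]
  have h2 : #(Om → Bool) = #(Set Om) := by
    rw [mk_set, ← mk_bool]
    simp
  rw [h2]
  have h3 : #Om ≤ #(Set Om) := by
    rw [mk_set]
    exact (cantor _).le
  exact (mul_le_max_of_aleph0_le_right aleph0_le_setOm).trans (max_le h3 le_rfl)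

theorem exists_inj {A B : Type} (h : #A ≤ #B) : ∃ f : A → B, Function.Injective f := by
  obtain ⟨e⟩ := h
  exact ⟨e, e.injective⟩

theorem exists_code : ∃ c : Set (Set Om) → Set Om, CodeOK c := by
  classical
  obtain ⟨f, hf⟩ := exists_inj mk_cnt
  refine ⟨fun N => if h : N.Countable then f ⟨N, h⟩ else ∅, ?_⟩
  intro N N' hN hN' h
  simp only [hN, hN', dif_pos] at h
  exact congrArg Subtype.val (hf h)

theorem crd : CrdStmt := by
  classical
  obtain ⟨c, hc⟩ := exists_code
  obtain ⟨cN, hcN⟩ := exists_inj mk_node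
  have hinf : Infinite (Set Om) := inferInstance
  have h1 : #(Finset (Set Om) × Finset (Set Om)) ≤ #(Set Om) := by
    rw [mk_prod, lift_id, mk_finset_of_infinite, mul_eq_self aleph0_le_setOm]
  obtain ⟨g, hg⟩ := exists_inj h1
  refine ⟨⟨c, hc⟩, exists_inj ?_, ⟨cN, hcN⟩,
    ⟨fun p => g (p.1.image cN, p.2.image c), ?_⟩⟩
  · rw [mk_list_eq_mk]
  · intro p q hp hq h
    have h' := Prod.mk.inj (hg h)
    have h2 : p.1 = q.1 := Finset.image_injective hcN h'.1
    have h3 : p.2 = q.2 := by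
      have key : ∀ r s : Finset (Set (Set Om)), (∀ N ∈ r, N.Countable) →
          (∀ N ∈ s, N.Countable) → r.image c = s.image c → ∀ N ∈ r, N ∈ s := by
        intro r s hr hs hrs N hN
        have h4 : c N ∈ s.image c := by
          rw [← hrs]
          exact Finset.mem_image_of_mem c hN
        obtain ⟨N', hN', h5⟩ := Finset.mem_image.1 h4
        rw [hc N N' (hr N hN) (hs N' hN') h5.symm]
        exact hN'
      exact Finset.Subset.antisymm (key _ _ hp hq h'.2) (key _ _ hq hp h'.2.symm)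
    exact Prod.ext h2 h3

end Pool.Agent.MOO.H15
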